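import Mathlib

set_option autoImplicit false

/-!
# The sequential fan in function spaces of Menger spaces: the construction from CH
-/

namespace Pool.Agent.TH578.Fan

open Set Filter Topology TopologicalSpace Cardinal

universe u

/-- The covering property called Hurewicz in the problem (Menger's property): from every sequence
of open covers one can choose finite subfamilies which together cover the space. -/
def Menger (X : Type u) [TopologicalSpace X] : Prop :=
  ∀ U : ℕ → Set (Set X), (∀ n, ∀ u ∈ U n, IsOpen u) → (∀ n, ⋃₀ U n = Set.univ) →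
    ∃ V : ℕ → Set (Set X), (∀ n, V n ⊆ U n ∧ (V n).Finite) ∧ (⋃ n, ⋃₀ V n) = Set.univ

/-- The countable Frechet-Urysohn fan: all the points `(n, ∞)` of `ℕ × (ℕ ∪ {∞})` are
identified. -/
abbrev SFan : Type :=
  Quot (fun p q : ℕ × OnePoint ℕ => p = q ∨ (p.2 = OnePoint.infty ∧ q.2 = OnePoint.infty))

/-- The fan embeds in the space of continuous real functions with the pointwise topology. -/
def FanEmbeds (X : Type u) [TopologicalSpace X] : Prop :=
  ∃ f : SFan → {g : X → ℝ // Continuous g}, Topology.IsEmbedding f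

/-! ### Well-ordering -/

theorem exists_wo {I : Type} (hI : #I = ℵ₁) :
    ∃ r : I → I → Prop, IsWellOrder I r ∧ ∀ i, {j | r j i}.Countable := by
  obtain ⟨r, wo, hr⟩ := Cardinal.exists_ord_eq I
  refine ⟨r, wo, fun i => ?_⟩
  have h1 : Ordinal.typein r i < (#I).ord := by rw [hr]; exact Ordinal.typein_lt_type r i
  rw [Cardinal.lt_ord, hI] at h1
  have h2 : #{j // r j i} < ℵ₁ := by
    rwa [Ordinal.card_typein] at h1
  have h3 : #{j // r j i} ≤ ℵ₀ := by
    rw [← Order.lt_succ_iff, Cardinal.succ_aleph0]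
    exact h2
  exact Cardinal.mk_le_aleph0_iff.1 h3

/-! ### A pair of points in many dense open sets with large maximum -/

theorem exists_near {D : Set (ℕ → ℕ)} (hD : Dense D) (x : ℕ → ℕ) (N : ℕ) :
    ∃ y ∈ D, ∀ k < N, y k = x k := by
  have ho : IsOpen {y : ℕ → ℕ | ∀ k < N, y k = x k} := by
    have : {y : ℕ → ℕ | ∀ k < N, y k = x k} = ⋂ k ∈ Set.Iio N, (fun y : ℕ → ℕ => y k) ⁻¹' {x k} := by
      ext y; simp
    rw [this]
    exact (Set.finite_Iio N).isOpen_biInter fun k _ => (isOpen_discrete _).preimage (continuous_apply k)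
  obtain ⟨y, hy1, hy2⟩ := hD.inter_open_nonempty _ ho ⟨x, fun k _ => rfl⟩
  exact ⟨y, hy2, hy1⟩

theorem exists_pair (g : ℕ → ℕ) {ι : Type} [Countable ι] (D : ι → Set (ℕ → ℕ))
    (hD : ∀ k, IsOpen (D k) ∧ Dense (D k)) :
    ∃ y z : ℕ → ℕ, (∀ n, g n ≤ max (y n) (z n)) ∧ ∀ k, y ∈ D k ∧ z ∈ D k := by
  set P : Set ((ℕ → ℕ) × (ℕ → ℕ)) := {p | ∀ n, g n ≤ max (p.1 n) (p.2 n)} with hP
  have hc : IsClosed P := by
    have : P = ⋂ n, {p : (ℕ → ℕ) × (ℕ → ℕ) | g n ≤ max (p.1 n) (p.2 n)} := by
      ext p; simp [hP]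
    rw [this]
    refine isClosed_iInter fun n => ?_
    exact isClosed_le continuous_const
      (((continuous_apply n).comp continuous_fst).max ((continuous_apply n).comp continuous_snd))
  have hpol : PolishSpace P := hc.polishSpace
  have hne : Nonempty P := ⟨⟨(g, g), fun n => by simp⟩⟩
  let A : Bool × ι → Set P := fun b => if b.1 then {p | p.1.1 ∈ D b.2} else {p | p.1.2 ∈ D b.2}
  have hAo : ∀ b, IsOpen (A b) := by
    rintro ⟨b, k⟩
    cases b
    · exact (hD k).1.preimage (continuous_snd.comp continuous_subtype_val)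
    · exact (hD k).1.preimage (continuous_fst.comp continuous_subtype_val)
  have hAd : ∀ b, Dense (A b) := by
    rintro ⟨b, k⟩ p
    obtain ⟨⟨y, z⟩, hp⟩ := p
    cases b
    · choose w hw1 hw2 using fun N => exists_near (hD k).2 z N
      let q : ℕ → P := fun N => ⟨(fun n => if n < N then y n else g n, w N), fun n => by
        by_cases h : n < N
        · have := hp n
          simp only [h, if_true, hw2 N n h]
          exact this
        · simp [h]⟩
      have hq : Tendsto q atTop (𝓝 ⟨(y, z), hp⟩) := by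
        rw [tendsto_subtype_rng]
        refine Tendsto.prodMk_nhds ?_ ?_
        · rw [tendsto_pi_nhds]
          intro n
          refine tendsto_const_nhds.congr' ?_
          filter_upwards [eventually_gt_atTop n] with N hN
          simp [hN]
        · rw [tendsto_pi_nhds]
          intro n
          refine tendsto_const_nhds.congr' ?_
          filter_upwards [eventually_gt_atTop n] with N hN
          simp [hw2 N n hN]
      exact mem_closure_of_tendsto hq (Eventually.of_forall fun N => hw1 N)
    · choose w hw1 hw2 using fun N => exists_near (hD k).2 y N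
      let q : ℕ → P := fun N => ⟨(w N, fun n => if n < N then z n else g n), fun n => by
        by_cases h : n < N
        · have := hp n
          simp only [h, if_true, hw2 N n h]
          exact this
        · simp [h]⟩
      have hq : Tendsto q atTop (𝓝 ⟨(y, z), hp⟩) := by
        rw [tendsto_subtype_rng]
        refine Tendsto.prodMk_nhds ?_ ?_
        · rw [tendsto_pi_nhds]
          intro n
          refine tendsto_const_nhds.congr' ?_
          filter_upwards [eventually_gt_atTop n] with N hN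
          simp [hw2 N n hN]
        · rw [tendsto_pi_nhds]
          intro n
          refine tendsto_const_nhds.congr' ?_
          filter_upwards [eventually_gt_atTop n] with N hN
          simp [hN]
      exact mem_closure_of_tendsto hq (Eventually.of_forall fun N => hw1 N)
  have hdense := dense_iInter_of_isOpen hAo hAd
  obtain ⟨⟨⟨y, z⟩, hp⟩, hq⟩ := hdense.nonempty
  refine ⟨y, z, hp, fun k => ⟨?_, ?_⟩⟩
  · exact mem_iInter.1 hq (true, k)
  · exact mem_iInter.1 hq (false, k)

/-! ### Codes for open sets -/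

/-- The basic open set of the sequences which begin with the list `l`. -/
def B (l : List ℕ) : Set (ℕ → ℕ) := {x | (List.range l.length).map x = l}

theorem isOpen_B (l : List ℕ) : IsOpen (B l) := by
  have : B l = ⋂ k ∈ Set.Iio l.length, (fun y : ℕ → ℕ => y k) ⁻¹' {l.getD k 0} := by
    ext x
    simp only [B, mem_ofPred_eq, mem_iInter, mem_Iio, mem_preimage, mem_singleton_iff]
    constructor
    · intro h k hk
      conv_rhs => rw [← h]
      simp [List.getD, hk]
    · intro h
      apply List.ext_getElem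
      · simp
      · intro k hk1 hk2
        have := h k hk2
        simp [this, List.getD, hk2]
  rw [this]
  exact (Set.finite_Iio _).isOpen_biInter fun k _ => (isOpen_discrete _).preimage (continuous_apply k)

/-- The open set coded by a sequence of lists. -/
def O (a : ℕ → List ℕ) : Set (ℕ → ℕ) := ⋃ i, B (a i)

theorem isOpen_O (a : ℕ → List ℕ) : IsOpen (O a) := isOpen_iUnion fun i => isOpen_B (a i)

theorem exists_B {W : Set (ℕ → ℕ)} (hW : IsOpen W) {x : ℕ → ℕ} (hx : x ∈ W) :
    ∃ l, x ∈ B l ∧ B l ⊆ W := by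
  obtain ⟨I, v, hI, hIW⟩ := isOpen_pi_iff.1 hW x hx
  refine ⟨(List.range (I.sup id + 1)).map x, by simp [B], ?_⟩
  intro y hy
  apply hIW
  intro i hi
  have hi2 : i < I.sup id + 1 := Nat.lt_succ_of_le (Finset.le_sup (f := id) hi)
  have : y i = x i := by
    simp only [B, mem_ofPred_eq, List.length_map, List.length_range] at hy
    have := List.map_inj_left.1 hy i (by simpa using hi2)
    exact this
  rw [this]
  exact (hI i hi).2

theorem exists_code {W : Set (ℕ → ℕ)} (hW : IsOpen W) (hne : W.Nonempty) : ∃ a, O a = W := by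
  obtain ⟨x, hx⟩ := hne
  obtain ⟨l, _, hl⟩ := exists_B hW hx
  have hc : {l : List ℕ | B l ⊆ W}.Countable := Set.to_countable _
  obtain ⟨a, ha⟩ := hc.exists_eq_range ⟨l, hl⟩
  refine ⟨a, ?_⟩
  ext y
  simp only [O, mem_iUnion]
  constructor
  · rintro ⟨i, hi⟩
    have : a i ∈ {l : List ℕ | B l ⊆ W} := ha ▸ ⟨i, rfl⟩
    exact this hi
  · intro hy
    obtain ⟨l, hl1, hl2⟩ := exists_B hW hy
    have : l ∈ range a := ha ▸ hl2
    obtain ⟨i, rfl⟩ := this
    exact ⟨i, hl1⟩

/-- The eventually zero sequences. -/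
def Q : Set (ℕ → ℕ) := range (fun f : ℕ →₀ ℕ => (f : ℕ → ℕ))

theorem countable_Q : Q.Countable := countable_range _

theorem mem_Q_of {x : ℕ → ℕ} {N : ℕ} (h : ∀ n, N ≤ n → x n = 0) : x ∈ Q := by
  refine ⟨Finsupp.onFinset (Finset.range N) x fun n hn => ?_, ?_⟩
  · by_contra hc
    exact hn (h n (by simpa using hc))
  · ext n; simp

theorem dense_of_Q {W : Set (ℕ → ℕ)} (h : Q ⊆ W) : Dense W := by
  intro x
  have hq : Tendsto (fun N : ℕ => fun n => if n < N then x n else 0) atTop (𝓝 x) := by
    rw [tendsto_pi_nhds]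
    intro n
    refine tendsto_const_nhds.congr' ?_
    filter_upwards [eventually_gt_atTop n] with N hN
    simp [hN]
  refine mem_closure_of_tendsto hq (Eventually.of_forall fun N => h (mem_Q_of (N := N) ?_))
  intro n hn
  simp [hn]

/-! ### The space -/

/-- Every sequence of open covers of `X` has a selection of single members which covers. -/
theorem menger_of_exceptions (X : Set (ℕ → ℕ)) (hQ : Q ⊆ X)
    (hX : ∀ a, Q ⊆ O a → (X \ O a).Countable) : Menger X := by
  intro U hU1 hU2
  have key : ∀ n (x : X), ∃ u, u ∈ U n ∧ x ∈ u := by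
    intro n x
    have : x ∈ ⋃₀ U n := by rw [hU2]; trivial
    obtain ⟨u, hu, hx⟩ := this
    exact ⟨u, hu, hx⟩
  choose c hc1 hc2 using key
  have hW : ∀ n (x : X), ∃ W : Set (ℕ → ℕ), IsOpen W ∧ Subtype.val ⁻¹' W = c n x := by
    intro n x
    exact isOpen_induced_iff.1 (hU1 n _ (hc1 n x))
  choose W hW1 hW2 using hW
  obtain ⟨q, hq⟩ := countable_Q.exists_eq_range ⟨_, mem_Q_of (x := fun _ => 0) (N := 0) (by simp)⟩
  have hqX : ∀ n, q n ∈ X := fun n => hQ (hq ▸ ⟨n, rfl⟩)
  let W' : Set (ℕ → ℕ) := ⋃ n, W (2 * n) ⟨q n, hqX n⟩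
  have hW'o : IsOpen W' := isOpen_iUnion fun n => hW1 _ _
  have hmemW : ∀ n (x : X), (x : ℕ → ℕ) ∈ W n x := by
    intro n x
    have : x ∈ Subtype.val ⁻¹' W n x := by rw [hW2]; exact hc2 n x
    exact this
  have hQW : Q ⊆ W' := by
    intro x hx
    rw [hq] at hx
    obtain ⟨n, rfl⟩ := hx
    exact mem_iUnion.2 ⟨n, hmemW (2 * n) ⟨q n, hqX n⟩⟩
  obtain ⟨a, ha⟩ := exists_code hW'o ⟨q 0, hQW (hq ▸ ⟨0, rfl⟩)⟩
  have hE : (X \ W').Countable := ha ▸ hX a (ha ▸ hQW)
  have hE' : {x : X | (x : ℕ → ℕ) ∉ W'}.Countable := by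
    have : {x : X | (x : ℕ → ℕ) ∉ W'} = Subtype.val ⁻¹' (X \ W') := by
      ext x; simp [x.2]
    rw [this]
    exact hE.preimage Subtype.val_injective
  obtain ⟨e, he⟩ := (hE'.union (countable_singleton (⟨q 0, hqX 0⟩ : X))).exists_eq_range
    ⟨⟨q 0, hqX 0⟩, Or.inr rfl⟩
  refine ⟨fun n => {if n % 2 = 0 then c n ⟨q (n / 2), hqX _⟩ else c n (e (n / 2))}, fun n => ⟨?_, finite_singleton _⟩, ?_⟩
  · intro u hu
    rw [mem_singleton_iff] at hu
    rw [hu]
    split_ifs
    · exact hc1 _ _
    · exact hc1 _ _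
  · apply eq_univ_of_forall
    intro x
    simp only [sUnion_singleton, mem_iUnion]
    by_cases hx : (x : ℕ → ℕ) ∈ W'
    · obtain ⟨n, hn⟩ := mem_iUnion.1 hx
      refine ⟨2 * n, ?_⟩
      have h1 : 2 * n % 2 = 0 := by omega
      have h2 : 2 * n / 2 = n := by omega
      simp only [h1, h2, if_true]
      rw [← hW2]
      exact hn
    · have hx2 : x ∈ range e := he ▸ Or.inl hx
      obtain ⟨n, rfl⟩ := hx2
      refine ⟨2 * n + 1, ?_⟩
      have h1 : ¬ ((2 * n + 1) % 2 = 0) := by omega
      have h2 : (2 * n + 1) / 2 = n := by omega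
      simp only [h1, h2, if_false]
      exact hc2 _ _

/-- From CH: a Menger set of irrationals in which the maxima of pairs dominate. -/
theorem exists_X (hCH : ℵ₁ = Cardinal.continuum.{0}) :
    ∃ X : Set (ℕ → ℕ), Q ⊆ X ∧ Menger X ∧
      ∀ g : ℕ → ℕ, ∃ y ∈ X, ∃ z ∈ X, ∀ n, g n ≤ max (y n) (z n) := by
  have hI : #((ℕ → List ℕ) × (ℕ → ℕ)) = ℵ₁ := by
    rw [hCH]
    simp
  obtain ⟨r, wo, hr⟩ := exists_wo hI
  have hpair : ∀ i : (ℕ → List ℕ) × (ℕ → ℕ), ∃ y z : ℕ → ℕ, (∀ n, i.2 n ≤ max (y n) (z n)) ∧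
      ∀ j, r j i → Q ⊆ O j.1 → y ∈ O j.1 ∧ z ∈ O j.1 := by
    intro i
    have hc : {j | r j i ∧ Q ⊆ O j.1}.Countable := (hr i).mono fun j hj => hj.1
    have : Countable {j | r j i ∧ Q ⊆ O j.1} := hc.to_subtype
    obtain ⟨y, z, h1, h2⟩ := exists_pair i.2 (ι := {j | r j i ∧ Q ⊆ O j.1}) (fun j => O j.1.1)
      (fun j => ⟨isOpen_O _, dense_of_Q j.2.2⟩)
    exact ⟨y, z, h1, fun j hj hQ => h2 ⟨j, hj, hQ⟩⟩
  choose y z h1 h2 using hpair
  refine ⟨Q ∪ (range y ∪ range z), subset_union_left, ?_, ?_⟩
  · apply menger_of_exceptions _ subset_union_left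
    intro a ha
    let i0 : (ℕ → List ℕ) × (ℕ → ℕ) := (a, fun _ => 0)
    have hc : {i | ¬ r i0 i}.Countable := by
      have : {i | ¬ r i0 i} ⊆ {i | r i i0} ∪ {i0} := by
        intro i hi
        rcases trichotomous_of r i i0 with h | h | h
        · exact Or.inl h
        · exact Or.inr h
        · exact absurd h hi
      exact ((hr i0).union (countable_singleton _)).mono this
    refine ((hc.image y).union (hc.image z)).mono ?_
    rintro x ⟨hx | ⟨i, rfl⟩ | ⟨i, rfl⟩, hx2⟩
    · exact absurd (ha hx) hx2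
    · refine Or.inl ⟨i, fun h => hx2 (h2 i i0 h ha).1, rfl⟩
    · refine Or.inr ⟨i, fun h => hx2 (h2 i i0 h ha).2, rfl⟩
  · intro g
    exact ⟨y ((fun _ => []), g), Or.inr (Or.inl ⟨_, rfl⟩), z ((fun _ => []), g),
      Or.inr (Or.inr ⟨_, rfl⟩), h1 ((fun _ => []), g)⟩

/-! ### The fan -/

/-- The functions which represent the points of the fan. -/
noncomputable def F (X : Set (ℕ → ℕ)) (n : ℕ) : OnePoint ℕ → X → ℝ
  | none => fun _ => 0
  | some m => fun x => if m < x.1 n then 1 else 0

theorem F_cont (X : Set (ℕ → ℕ)) (n : ℕ) (m : OnePoint ℕ) : Continuous (F X n m) := by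
  cases m with
  | infty => exact continuous_const
  | coe m =>
    have h : F X n (m : OnePoint ℕ) = (fun k : ℕ => if m < k then (1 : ℝ) else 0) ∘ (fun x : X => x.1 n) := rfl
    rw [h]
    exact continuous_of_discreteTopology.comp ((continuous_apply n).comp continuous_subtype_val)

/-- The map on the product. -/
noncomputable def G (X : Set (ℕ → ℕ)) (p : ℕ × OnePoint ℕ) : {g : X → ℝ // Continuous g} :=
  ⟨F X p.1 p.2, F_cont X p.1 p.2⟩

theorem G_cont (X : Set (ℕ → ℕ)) : Continuous (G X) := by
  refine Continuous.subtype_mk ?_ _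
  refine continuous_pi fun x => ?_
  rw [continuous_prod_of_discrete_left]
  intro n
  rw [OnePoint.continuous_iff_from_nat]
  refine tendsto_const_nhds.congr' ?_
  filter_upwards [eventually_ge_atTop (x.1 n)] with m hm
  show (0 : ℝ) = if m < x.1 n then 1 else 0
  rw [if_neg (not_lt.2 hm)]

theorem G_inf (X : Set (ℕ → ℕ)) (n : ℕ) : G X (n, OnePoint.infty) = ⟨fun _ => 0, continuous_const⟩ := rfl

/-- The map on the fan. -/
noncomputable def H (X : Set (ℕ → ℕ)) : SFan → {g : X → ℝ // Continuous g} :=
  Quot.lift (G X) (by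
    rintro ⟨n, a⟩ ⟨m, b⟩ (h | ⟨h1, h2⟩)
    · rw [h]
    · simp only at h1 h2
      subst h1 h2
      rw [G_inf, G_inf])

theorem H_cont (X : Set (ℕ → ℕ)) : Continuous (H X) := continuous_quot_lift _ (G_cont X)

/-- The sequence with the value `k` at `n` and zero elsewhere. -/
def pt (n k : ℕ) : ℕ → ℕ := fun i => if i = n then k else 0

theorem pt_mem (n k : ℕ) : pt n k ∈ Q := by
  refine mem_Q_of (N := n + 1) fun i hi => ?_
  have : i ≠ n := by omega
  simp [pt, this]

theorem eq_of_close {X : Set (ℕ → ℕ)} (hQ : Q ⊆ X) (n m : ℕ) (w : SFan)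
    (h1 : |(H X w).1 ⟨pt n (m + 1), hQ (pt_mem _ _)⟩ - 1| < 1 / 2)
    (h2 : |(H X w).1 ⟨pt n m, hQ (pt_mem _ _)⟩| < 1 / 2) : w = Quot.mk _ (n, (m : OnePoint ℕ)) := by
  induction w using Quot.ind with
  | mk w =>
    obtain ⟨n', a⟩ := w
    cases a with
    | infty =>
      exfalso
      have : (H X (Quot.mk _ (n', OnePoint.infty))).1 ⟨pt n (m + 1), hQ (pt_mem _ _)⟩ = 0 := rfl
      rw [this] at h1
      norm_num at h1
    | coe m' =>
      have e1 : (H X (Quot.mk _ (n', (m' : OnePoint ℕ)))).1 ⟨pt n (m + 1), hQ (pt_mem _ _)⟩ =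
        if m' < pt n (m + 1) n' then 1 else 0 := rfl
      have e2 : (H X (Quot.mk _ (n', (m' : OnePoint ℕ)))).1 ⟨pt n m, hQ (pt_mem _ _)⟩ =
        if m' < pt n m n' then 1 else 0 := rfl
      rw [e1] at h1
      rw [e2] at h2
      have g1 : m' < pt n (m + 1) n' := by
        by_contra hc
        rw [if_neg hc] at h1
        norm_num at h1
      have g2 : ¬ m' < pt n m n' := by
        intro hc
        rw [if_pos hc] at h2
        norm_num at h2
      have hn : n' = n := by
        by_contra hc
        simp [pt, hc] at g1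
      subst hn
      simp only [pt, if_true] at g1 g2
      have : m' = m := by omega
      rw [this]

theorem exists_bound (W : Set SFan) (hW : IsOpen W) (n0 : ℕ)
    (hmem : (Quot.mk _ (n0, OnePoint.infty) : SFan) ∈ W) :
    ∃ g : ℕ → ℕ, ∀ n m, g n ≤ m → (Quot.mk _ (n, (m : OnePoint ℕ)) : SFan) ∈ W := by
  have hinf : ∀ n, (Quot.mk _ (n, OnePoint.infty) : SFan) ∈ W := by
    intro n
    have : (Quot.mk _ (n, OnePoint.infty) : SFan) = Quot.mk _ (n0, OnePoint.infty) :=
      Quot.sound (Or.inr ⟨rfl, rfl⟩)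
    rw [this]
    exact hmem
  have key : ∀ n, ∃ g : ℕ, ∀ m : ℕ, g ≤ m → (Quot.mk _ (n, (m : OnePoint ℕ)) : SFan) ∈ W := by
    intro n
    have hc : Continuous (fun a : OnePoint ℕ => (Quot.mk _ (n, a) : SFan)) :=
      continuous_quot_mk.comp (Continuous.prodMk_right n)
    have ht : Tendsto (fun m : ℕ => (m : OnePoint ℕ)) atTop (𝓝 OnePoint.infty) := by
      have := OnePoint.tendsto_coe_infty (X := ℕ)
      rwa [coclosedCompact_eq_cocompact, cocompact_eq_cofinite, Nat.cofinite_eq_atTop] at this
    have h := ht.eventually ((hc.isOpen_preimage _ hW).mem_nhds (hinf n))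
    obtain ⟨g, hg⟩ := eventually_atTop.1 h
    exact ⟨g, hg⟩
  choose g hg using key
  exact ⟨g, fun n m h => hg n m h⟩

theorem H_embed {X : Set (ℕ → ℕ)} (hQ : Q ⊆ X)
    (hX : ∀ g : ℕ → ℕ, ∃ y ∈ X, ∃ z ∈ X, ∀ n, g n ≤ max (y n) (z n)) :
    Topology.IsEmbedding (H X) := by
  refine ⟨?_, ?_⟩
  · rw [isInducing_iff_nhds]
    intro w
    refine le_antisymm ((H_cont X).tendsto w).le_comap ?_
    intro s hs
    rw [mem_comap]
    induction w using Quot.ind with
    | mk w =>
      obtain ⟨n, a⟩ := w
      cases a with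
      | infty =>
        obtain ⟨W, hWs, hWo, hW⟩ := mem_nhds_iff.1 hs
        obtain ⟨g, hg⟩ := exists_bound W hWo n hW
        obtain ⟨y, hy, z, hz, hyz⟩ := hX g
        refine ⟨{h | |h.1 ⟨y, hy⟩| < 1 / 2} ∩ {h | |h.1 ⟨z, hz⟩| < 1 / 2}, ?_, ?_⟩
        · refine inter_mem ?_ ?_
          · refine IsOpen.mem_nhds ?_ ?_
            · exact isOpen_lt (((continuous_apply _).comp continuous_subtype_val).abs) continuous_const
            · show |(0 : ℝ)| < 1 / 2
              norm_num
          · refine IsOpen.mem_nhds ?_ ?_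
            · exact isOpen_lt (((continuous_apply _).comp continuous_subtype_val).abs) continuous_const
            · show |(0 : ℝ)| < 1 / 2
              norm_num
        · rintro w ⟨h1, h2⟩
          apply hWs
          induction w using Quot.ind with
          | mk w =>
            obtain ⟨n', a⟩ := w
            cases a with
            | infty =>
              have : (Quot.mk _ (n', OnePoint.infty) : SFan) = Quot.mk _ (n, OnePoint.infty) :=
                Quot.sound (Or.inr ⟨rfl, rfl⟩)
              rw [this]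
              exact hW
            | coe m =>
              apply hg
              have e1 : |(if m < y n' then (1 : ℝ) else 0)| < 1 / 2 := h1
              have e2 : |(if m < z n' then (1 : ℝ) else 0)| < 1 / 2 := h2
              have g1 : ¬ m < y n' := by
                intro hc
                rw [if_pos hc] at e1
                norm_num at e1
              have g2 : ¬ m < z n' := by
                intro hc
                rw [if_pos hc] at e2
                norm_num at e2
              exact (hyz n').trans (max_le (not_lt.1 g1) (not_lt.1 g2))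
      | coe m =>
        refine ⟨{h | |h.1 ⟨pt n (m + 1), hQ (pt_mem _ _)⟩ - 1| < 1 / 2} ∩
          {h | |h.1 ⟨pt n m, hQ (pt_mem _ _)⟩| < 1 / 2}, ?_, ?_⟩
        · refine inter_mem ?_ ?_
          · refine IsOpen.mem_nhds ?_ ?_
            · exact isOpen_lt ((((continuous_apply _).comp continuous_subtype_val).sub
                continuous_const).abs) continuous_const
            · show |(if m < pt n (m + 1) n then (1 : ℝ) else 0) - 1| < 1 / 2
              simp [pt]
          · refine IsOpen.mem_nhds ?_ ?_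
            · exact isOpen_lt (((continuous_apply _).comp continuous_subtype_val).abs) continuous_const
            · show |(if m < pt n m n then (1 : ℝ) else 0)| < 1 / 2
              simp [pt]
        · rintro w ⟨h1, h2⟩
          rw [eq_of_close hQ n m w h1 h2]
          exact mem_of_mem_nhds hs
  · intro v w hvw
    have key : ∀ (n m : ℕ) (w : SFan), H X w = H X (Quot.mk _ (n, (m : OnePoint ℕ))) →
        w = Quot.mk _ (n, (m : OnePoint ℕ)) := by
      intro n m w h
      apply eq_of_close hQ n m w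
      · rw [h]
        show |(if m < pt n (m + 1) n then (1 : ℝ) else 0) - 1| < 1 / 2
        simp [pt]
      · rw [h]
        show |(if m < pt n m n then (1 : ℝ) else 0)| < 1 / 2
        simp [pt]
    induction w using Quot.ind with
    | mk w =>
      obtain ⟨n, a⟩ := w
      cases a with
      | coe m => exact key n m v hvw
      | infty =>
        induction v using Quot.ind with
        | mk v =>
          obtain ⟨n', a⟩ := v
          cases a with
          | coe m => exact (key n' m _ hvw.symm).symm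
          | infty => exact Quot.sound (Or.inr ⟨rfl, rfl⟩)

/-- Under CH the fan embeds in `C_p(X)` for some Menger set `X` of irrationals. -/
theorem exists_of_ch (hCH : ℵ₁ = Cardinal.continuum.{0}) :
    ∃ X : Set (ℕ → ℕ), Menger X ∧ FanEmbeds X := by
  obtain ⟨X, hQ, hM, hX⟩ := exists_X hCH
  exact ⟨X, hM, H X, H_embed hQ hX⟩

/-! ### The reduction to powers of separable metrizable spaces -/

/-- If the fan embeds in `C_p(X)` and `X` is Menger then some Menger subspace of the space of real
double sequences has a finite power which is not Menger. -/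
theorem reduction (X : Type u) [TopologicalSpace X] (hM : Menger X) (hF : FanEmbeds X) :
    ∃ Y : Set (ℕ × ℕ → ℝ), Menger Y ∧ ∃ k : ℕ, ¬ Menger (Fin k → Y) := by
  obtain ⟨f, hf⟩ := hF
  let star : SFan := Quot.mk _ (0, OnePoint.infty)
  let e : X → (ℕ × ℕ → ℝ) := fun x p => (f (Quot.mk _ (p.1, (p.2 : OnePoint ℕ)))).1 x - (f star).1 x
  have he : Continuous e := continuous_pi fun p => ((f _).2.sub (f star).2)
  refine ⟨range e, ?_, ?_⟩
  · -- the image of a Menger space is Menger
    intro U hU1 hU2
    let e' : X → range e := fun x => ⟨e x, ⟨x, rfl⟩⟩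
    have he' : Continuous e' := he.subtype_mk _
    obtain ⟨V, hV1, hV2⟩ := hM (fun n => (fun u => e' ⁻¹' u) '' U n)
      (by rintro n _ ⟨u, hu, rfl⟩; exact (hU1 n u hu).preimage he')
      (by
        intro n
        apply eq_univ_of_forall
        intro x
        have : e' x ∈ ⋃₀ U n := by rw [hU2]; trivial
        obtain ⟨u, hu, hx⟩ := this
        exact ⟨_, ⟨u, hu, rfl⟩, hx⟩)
    have hch : ∀ n (v : Set X), ∃ u : Set (range e), v ∈ V n → u ∈ U n ∧ e' ⁻¹' u = v := by
      intro n v
      by_cases hv : v ∈ V n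
      · obtain ⟨u, hu, huv⟩ := (hV1 n).1 hv
        exact ⟨u, fun _ => ⟨hu, huv⟩⟩
      · exact ⟨∅, fun h => absurd h hv⟩
    choose c hc using hch
    refine ⟨fun n => c n '' V n, fun n => ⟨?_, (hV1 n).2.image _⟩, ?_⟩
    · rintro _ ⟨v, hv, rfl⟩
      exact (hc n v hv).1
    · apply eq_univ_of_forall
      rintro ⟨_, x, rfl⟩
      have : x ∈ ⋃ n, ⋃₀ V n := by rw [hV2]; trivial
      obtain ⟨n, v, hv, hx⟩ := mem_iUnion.1 this
      refine mem_iUnion.2 ⟨n, c n v, ⟨v, hv, rfl⟩, ?_⟩
      have h2 := (hc n v hv).2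
      have : x ∈ e' ⁻¹' c n v := by rw [h2]; exact hx
      exact this
  · by_contra hcon
    push Not at hcon
    -- the fan topology: for each `g` a finite set and a bound
    have hzero : ∀ (y : range e) (n : ℕ), Tendsto (fun m : ℕ => y.1 (n, m)) atTop (𝓝 0) := by
      rintro ⟨_, x, rfl⟩ n
      have hc : Continuous (fun a : OnePoint ℕ => (f (Quot.mk _ (n, a))).1 x) :=
        (continuous_apply x).comp (continuous_subtype_val.comp (hf.continuous.comp
          (continuous_quot_mk.comp (Continuous.prodMk_right n))))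
      have ht : Tendsto (fun m : ℕ => (m : OnePoint ℕ)) atTop (𝓝 OnePoint.infty) := by
        have := OnePoint.tendsto_coe_infty (X := ℕ)
        rwa [coclosedCompact_eq_cocompact, cocompact_eq_cofinite, Nat.cofinite_eq_atTop] at this
      have h := ((hc.tendsto OnePoint.infty).comp ht).sub_const ((f star).1 x)
      have hs : (Quot.mk _ (n, OnePoint.infty) : SFan) = star := Quot.sound (Or.inr ⟨rfl, rfl⟩)
      rw [hs, sub_self] at h
      exact h
    -- selections from the powers
    have hsel : ∀ k l : ℕ, ∃ J : ℕ → ℕ, ∀ y : Fin k → range e, ∃ n, ∃ m ≤ J n,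
        ∀ i, |(y i).1 (n + (k + l), m)| < 1 / ((l : ℝ) + 1) := by
      intro k l
      let O' : ℕ → ℕ → Set (Fin k → range e) := fun n j =>
        {y | ∃ m ≤ j, ∀ i, |(y i).1 (n + (k + l), m)| < 1 / ((l : ℝ) + 1)}
      have hO'o : ∀ n j, IsOpen (O' n j) := by
        intro n j
        have : O' n j = ⋃ m ∈ Set.Iic j, ⋂ i : Fin k,
            {y : Fin k → range e | |(y i).1 (n + (k + l), m)| < 1 / ((l : ℝ) + 1)} := by
          ext y
          simp [O']
        rw [this]
        refine isOpen_biUnion fun m _ => isOpen_iInter_of_finite fun i => ?_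
        exact isOpen_lt (((continuous_apply _).comp (continuous_subtype_val.comp
          (continuous_apply i))).abs) continuous_const
      have hmono : ∀ n j j', j ≤ j' → O' n j ⊆ O' n j' := by
        rintro n j j' h y ⟨m, hm, hy⟩
        exact ⟨m, hm.trans h, hy⟩
      have hpos : (0 : ℝ) < 1 / ((l : ℝ) + 1) := by positivity
      obtain ⟨V, hV1, hV2⟩ := hcon k (fun n => range (O' n))
        (by rintro n _ ⟨j, rfl⟩; exact hO'o n j)
        (by
          intro n
          apply eq_univ_of_forall
          intro y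
          have h1 : ∀ i : Fin k, ∀ᶠ m in atTop, |(y i).1 (n + (k + l), m)| < 1 / ((l : ℝ) + 1) := by
            intro i
            have := (hzero (y i) (n + (k + l))).abs
            rw [abs_zero] at this
            exact this.eventually (gt_mem_nhds hpos)
          obtain ⟨m, hm⟩ := (eventually_all.2 h1).exists
          exact ⟨_, ⟨m, rfl⟩, m, le_rfl, hm⟩)
      have hJ : ∀ n, ∃ J, ∀ v ∈ V n, v ⊆ O' n J := by
        intro n
        have hfin := (hV1 n).2
        have hch : ∀ v : Set (Fin k → range e), ∃ j, v ∈ V n → v = O' n j := by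
          intro v
          by_cases hv : v ∈ V n
          · obtain ⟨j, hj⟩ := (hV1 n).1 hv
            exact ⟨j, fun _ => hj.symm⟩
          · exact ⟨0, fun h => absurd h hv⟩
        choose c hc using hch
        obtain ⟨J, hJ⟩ := (hfin.image c).bddAbove
        refine ⟨J, fun v hv => ?_⟩
        have h2 := hmono n _ _ (hJ ⟨v, hv, rfl⟩)
        rw [← hc v hv] at h2
        exact h2
      choose J hJ using hJ
      refine ⟨J, fun y => ?_⟩
      have : y ∈ ⋃ n, ⋃₀ V n := by rw [hV2]; trivial
      obtain ⟨n, v, hv, hy⟩ := mem_iUnion.1 this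
      exact ⟨n, hJ n v hv hy⟩
    choose J hJ using hsel
    let g : ℕ → ℕ := fun N => 1 + ((Finset.range (N + 1)) ×ˢ (Finset.range (N + 1))).sup
      (fun q => J q.1 q.2 (N - (q.1 + q.2)))
    have hg : ∀ k l n, J k l n < g (n + (k + l)) := by
      intro k l n
      have h1 : (k, l) ∈ (Finset.range (n + (k + l) + 1)) ×ˢ (Finset.range (n + (k + l) + 1)) := by
        simp only [Finset.mem_product, Finset.mem_range]
        omega
      have h2 := Finset.le_sup (f := fun q : ℕ × ℕ => J q.1 q.2 (n + (k + l) - (q.1 + q.2))) h1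
      simp only [Nat.add_sub_cancel] at h2
      show J k l n < 1 + _
      omega
    let φ : ℕ × OnePoint ℕ → Prop := fun p => ∀ m : ℕ, p.2 = (m : OnePoint ℕ) → g p.1 ≤ m
    let W : Set SFan := {w | Quot.lift φ (by
      rintro p q (h | ⟨h1, h2⟩)
      · rw [h]
      · have h3 : φ p := fun m hm => absurd (h1.symm.trans hm) (OnePoint.infty_ne_coe m)
        have h4 : φ q := fun m hm => absurd (h2.symm.trans hm) (OnePoint.infty_ne_coe m)
        exact propext ⟨fun _ => h4, fun _ => h3⟩) w}
    have hWo : IsOpen W := by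
      have h1 : IsOpen {p | φ p} := by
        have : {p | φ p} = ⋃ n : ℕ, (Prod.fst ⁻¹' {n}) ∩
            (Prod.snd ⁻¹' (((fun m : ℕ => (m : OnePoint ℕ)) '' (Iio (g n)))ᶜ)) := by
          ext p
          simp only [mem_ofPred_eq, mem_iUnion, mem_inter_iff, mem_preimage, mem_singleton_iff,
            mem_compl_iff, mem_image, mem_Iio, φ]
          constructor
          · intro h
            refine ⟨p.1, rfl, ?_⟩
            rintro ⟨m, hm1, hm2⟩
            have := h m hm2.symm
            omega
          · rintro ⟨n, hn, h⟩ m hm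
            by_contra hc
            exact h ⟨m, by rw [← hn]; omega, hm.symm⟩
        rw [this]
        refine isOpen_iUnion fun n => IsOpen.inter ?_ ?_
        · exact (isOpen_discrete _).preimage continuous_fst
        · exact (((finite_Iio _).image _).isClosed.isOpen_compl).preimage continuous_snd
      exact isQuotientMap_quot_mk.isOpen_preimage.1 h1
    have hstar : star ∈ W := fun m hm => absurd hm (OnePoint.infty_ne_coe m)
    obtain ⟨T, hTo, hT⟩ := hf.isInducing.isOpen_iff.1 hWo
    obtain ⟨T', hT'o, hT'⟩ := isOpen_induced_iff.1 hTo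
    have hsT : (f star).1 ∈ T' := by
      have h1 : star ∈ f ⁻¹' T := by rw [hT]; exact hstar
      have h2 : f star ∈ T := h1
      rw [← hT'] at h2
      exact h2
    obtain ⟨I, u, hIu, hIT⟩ := isOpen_pi_iff.1 hT'o _ hsT
    have hl : ∃ l : ℕ, ∀ x ∈ I, Metric.ball ((f star).1 x) (1 / ((l : ℝ) + 1)) ⊆ u x := by
      have h1 : ∀ x ∈ I, ∀ᶠ l : ℕ in atTop, Metric.ball ((f star).1 x) (1 / ((l : ℝ) + 1)) ⊆ u x := by
        intro x hx
        obtain ⟨ε, hε, hb⟩ := Metric.isOpen_iff.1 (hIu x hx).1 _ (hIu x hx).2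
        have := (tendsto_one_div_add_atTop_nhds_zero_nat (𝕜 := ℝ)).eventually (gt_mem_nhds hε)
        filter_upwards [this] with l hl
        exact (Metric.ball_subset_ball hl.le).trans hb
      exact ((Finset.eventually_all I).2 h1).exists
    obtain ⟨l, hl⟩ := hl
    obtain ⟨n, m, hm, hy⟩ := hJ I.card l (fun i => ⟨e (I.equivFin.symm i), ⟨_, rfl⟩⟩)
    have hin : f (Quot.mk _ (n + (I.card + l), (m : OnePoint ℕ))) ∈ T := by
      rw [← hT']
      apply hIT
      intro x hx
      apply hl x hx
      rw [Metric.mem_ball, Real.dist_eq]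
      have := hy (I.equivFin ⟨x, hx⟩)
      simpa [e] using this
    have hin2 : (Quot.mk _ (n + (I.card + l), (m : OnePoint ℕ)) : SFan) ∈ W := by
      rw [← hT]; exact hin
    have h3 : g (n + (I.card + l)) ≤ m := hin2 m rfl
    have h4 := hg I.card l n
    omega

end Pool.Agent.TH578.Fan
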